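import Mathlib
import Pool.Agent.H6.IntA

namespace Pool.Agent.Results.MP_457b0e_al.Closure

open Polynomial TensorProduct Pool.Agent.H6.IntA

theorem result (D K A : Type) [CommRing D] [IsDomain D] [IsIntegrallyClosed D] [Field K]
    [Algebra D K] [IsFractionRing D K] [Ring A] [Algebra D A] [Module.IsTorsionFree D A]
    [Module.Finite D A] (hinj : Function.Injective (algebraMap D A)) :
    {r : RatFunc K | IsIntegral (intK D K A) r} =
      algebraMap K[X] (RatFunc K) '' intAA D K A := by
  ext r
  constructor
  · intro hr
    have h1 : IsIntegral K[X] r := IsIntegral.tower_top (R := intK D K A) hr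
    obtain ⟨f, rfl⟩ := IsIntegrallyClosed.isIntegral_iff.mp h1
    refine ⟨f, mem_of_integral ?_, rfl⟩
    exact (isIntegral_algHom_iff (IsScalarTower.toAlgHom (intK D K A) K[X] (RatFunc K))
      (IsFractionRing.injective K[X] (RatFunc K))).mp hr
  · rintro ⟨f, hf, rfl⟩
    exact (integral_of_mem hinj hf).map (IsScalarTower.toAlgHom (intK D K A) K[X] (RatFunc K))

end Pool.Agent.Results.MP_457b0e_al.Closure
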